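import Mathlib

/-!
# The common members of the chains of an optimal `d`-intersecting family

Let `d ≥ 2`. If all chains of an optimal `d`-intersecting family of chains in `[n]` have `d` (or
more) sets in common, then the empty set and `[n]` are among the common sets. More precisely, if
the largest common set `A` of the chains of a `d`-intersecting family is not `[n]` then there is a
`d`-intersecting family which is larger by a factor of more than `(n - |A| + 1) / 2`, and if the
smallest common set `A` is not empty there is one which is larger by a factor of more than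
`(|A| + 1) / 2`. For the initial segments `X_0, …, X_{d-1}` this factor is `(n - d + 2) / 2`.
-/

set_option autoImplicit false

open Finset

namespace Pool.Agent.Results.MP_63ed06_co.CommonMembers

/-- A chain `A_1 ⊊ ⋯ ⊊ A_m` (`m ≥ 1`) of subsets of `[n]`, given as its set of members: a nonempty
set of subsets of `[n]` any two of which are comparable. -/
def IsChainOf {n : ℕ} (C : Finset (Finset (Fin n))) : Prop :=
  C.Nonempty ∧ ∀ A ∈ C, ∀ B ∈ C, A ⊆ B ∨ B ⊆ A

/-- `F` is a `d`-intersecting family of chains in `[n]`: any two members (equal or not) have at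
least `d` sets in common. -/
def DIntersecting {n : ℕ} (d : ℕ) (F : Finset (Finset (Finset (Fin n)))) : Prop :=
  (∀ C ∈ F, IsChainOf C) ∧ ∀ C ∈ F, ∀ C' ∈ F, d ≤ #(C ∩ C')

/-- `F` is an optimal `d`-intersecting family of chains in `[n]`: it has maximum cardinality. -/
def Optimal {n : ℕ} (d : ℕ) (F : Finset (Finset (Finset (Fin n)))) : Prop :=
  DIntersecting d F ∧ ∀ G : Finset (Finset (Finset (Fin n))), DIntersecting d G → #G ≤ #F

/-- `X_j = {1, …, j}`, the first `j` elements of `[n]`. -/
def X (n j : ℕ) : Finset (Fin n) := univ.filter (fun i => (i : ℕ) < j)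

lemma mem_X {n j : ℕ} {i : Fin n} : i ∈ X n j ↔ (i : ℕ) < j := by simp [X]

lemma X_mono {n i j : ℕ} (h : i ≤ j) : X n i ⊆ X n j := by
  intro x hx
  rw [mem_X] at hx ⊢
  omega

lemma X_ne {n i j : ℕ} (h : i < j) (hj : j ≤ n) : X n i ≠ X n j := by
  intro he
  have h1 : (⟨i, by omega⟩ : Fin n) ∈ X n j := mem_X.2 h
  rw [← he, mem_X] at h1
  exact lt_irrefl _ h1

lemma X_inj {n i j : ℕ} (hi : i ≤ n) (hj : j ≤ n) (h : X n i = X n j) : i = j := by
  rcases lt_trichotomy i j with h1 | h1 | h1
  · exact absurd h (X_ne h1 hj)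
  · exact h1
  · exact absurd h.symm (X_ne h1 hi)

lemma card_X {n j : ℕ} (h : j ≤ n) : #(X n j) = j := by
  have : X n j = (range j).attachFin (fun i hi => lt_of_lt_of_le (mem_range.1 hi) h) := by
    ext i
    simp [mem_X]
  rw [this, card_attachFin, card_range]

/-- The case of a largest common set different from `[n]`. -/
lemma top {n d : ℕ} (hd : 2 ≤ d) {F : Finset (Finset (Finset (Fin n)))} (hF : DIntersecting d F)
    (hne : F.Nonempty) {K : Finset (Finset (Fin n))} (hKd : d ≤ #K) (hK : ∀ C ∈ F, K ⊆ C)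
    {A : Finset (Fin n)} (hA : A ∈ K) (hmax : ∀ B ∈ K, B ⊆ A) (hAu : A ≠ univ) :
    ∃ G : Finset (Finset (Finset (Fin n))), DIntersecting d G ∧ (n - #A + 1) * #F < 2 * #G := by
  classical
  obtain ⟨C₀, hC₀⟩ := hne
  set K' := K.erase A with hK'
  have hK'K : K' ⊆ K := erase_subset _ _
  have hK'card : #K' + 1 = #K := card_erase_add_one hA
  have hK'ne : K'.Nonempty := by
    rw [← card_pos]
    omega
  -- the second largest common set `B`
  obtain ⟨B, hB, hBmax⟩ := exists_max_image K' card hK'ne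
  have hBsub : ∀ S ∈ K', S ⊆ B := fun S hS => by
    rcases (hF.1 C₀ hC₀).2 S (hK C₀ hC₀ (hK'K hS)) B (hK C₀ hC₀ (hK'K hB)) with h | h
    · exact h
    · exact (eq_of_subset_of_card_le h (hBmax S hS)).symm.subset
  have hBA : B ⊂ A := (hmax B (hK'K hB)).ssubset_of_ne (mem_erase.1 hB).1
  obtain ⟨a, haA, haB⟩ := exists_of_ssubset hBA
  -- the transpositions
  set T : Finset (Fin n) := insert a Aᶜ with hT
  have haT : a ∉ Aᶜ := by simpa using haA
  have hTcard : #T = n - #A + 1 := by
    rw [hT, card_insert_of_notMem haT, card_compl, Fintype.card_fin]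
  let act : Fin n → Finset (Fin n) → Finset (Fin n) := fun x S => S.image (Equiv.swap a x)
  have act_inj : ∀ x, Function.Injective (act x) := fun x =>
    Finset.image_injective (Equiv.injective _)
  have act_univ : ∀ x, act x univ = univ := fun x =>
    Finset.image_univ_of_surjective (Equiv.surjective _)
  have act_card : ∀ x S, #(act x S) = #S := fun x S => card_image_of_injective _ (Equiv.injective _)
  have mem_act : ∀ x S y, y ∈ act x S ↔ Equiv.swap a x y ∈ S := fun x S y => by
    simp only [act, mem_image]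
    constructor
    · rintro ⟨z, hz, rfl⟩
      simpa using hz
    · intro h
      exact ⟨_, h, by simp⟩
  have memT : ∀ x ∈ T, x = a ∨ x ∉ A := fun x hx => by
    simpa [hT] using hx
  have notin : ∀ x ∈ T, ∀ S ∈ K', x ∉ S := fun x hx S hS hxS => by
    rcases memT x hx with rfl | h
    · exact haB (hBsub S hS hxS)
    · exact h (hmax S (hK'K hS) hxS)
  have act_K' : ∀ x ∈ T, ∀ S ∈ K', act x S = S := fun x hx S hS => by
    ext y
    rw [mem_act]
    by_cases h1 : y = a
    · subst h1
      rw [Equiv.swap_apply_left]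
      exact iff_of_false (notin x hx S hS) (fun h => haB (hBsub S hS h))
    · by_cases h2 : y = x
      · subst h2
        rw [Equiv.swap_apply_right]
        exact iff_of_false (fun h => haB (hBsub S hS h)) (notin y hx S hS)
      · rw [Equiv.swap_apply_of_ne_of_ne h1 h2]
  have act_A : ∀ x ∈ T, ∀ y ∈ T, (y ∈ act x A ↔ y = x) := fun x hx y hy => by
    rw [mem_act]
    by_cases h1 : y = a
    · subst h1
      rw [Equiv.swap_apply_left]
      rcases memT x hx with rfl | h
      · exact iff_of_true haA rfl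
      · exact iff_of_false h (fun e => h (e ▸ haA))
    · have hyA := (memT y hy).resolve_left h1
      by_cases h2 : y = x
      · subst h2
        rw [Equiv.swap_apply_right]
        exact iff_of_true haA rfl
      · rw [Equiv.swap_apply_of_ne_of_ne h1 h2]
        exact iff_of_false hyA h2
  -- the larger family
  let G : Finset (Finset (Finset (Fin n))) :=
    univ.filter fun D => (∀ S ∈ D, ∀ S' ∈ D, S ⊆ S' ∨ S' ⊆ S) ∧ insert univ K' ⊆ D
  have mG : ∀ D, D ∈ G ↔ (∀ S ∈ D, ∀ S' ∈ D, S ⊆ S' ∨ S' ⊆ S) ∧ insert univ K' ⊆ D := fun D => by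
    simp [G]
  have huK' : univ ∉ K' := fun h => hAu (univ_subset_iff.1 (hmax _ (hK'K h)))
  have hG : DIntersecting d G := by
    refine ⟨fun D hD => ⟨⟨univ, ((mG D).1 hD).2 (mem_insert_self _ _)⟩, ((mG D).1 hD).1⟩,
      fun D hD D' hD' => ?_⟩
    have h1 : #(insert univ K') = #K := by rw [card_insert_of_notMem huK', hK'card]
    calc d ≤ #(insert univ K') := by omega
      _ ≤ #(D ∩ D') := card_le_card (subset_inter ((mG D).1 hD).2 ((mG D').1 hD').2)
  refine ⟨G, hG, ?_⟩
  let H := F.image (insert univ)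
  have hH : ∀ D ∈ H, (∀ S ∈ D, ∀ S' ∈ D, S ⊆ S' ∨ S' ⊆ S) ∧ univ ∈ D ∧ K ⊆ D := fun D hD => by
    obtain ⟨C, hC, rfl⟩ := mem_image.1 hD
    refine ⟨fun S hS S' hS' => ?_, mem_insert_self _ _, (hK C hC).trans (subset_insert _ _)⟩
    rcases mem_insert.1 hS with rfl | hS
    · exact .inr (subset_univ _)
    · rcases mem_insert.1 hS' with rfl | hS'
      · exact .inl (subset_univ _)
      · exact (hF.1 C hC).2 S hS S' hS'
  let Φ : Finset (Finset (Fin n)) × Fin n → Finset (Finset (Fin n)) := fun p => p.1.image (act p.2)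
  have hΦG : ∀ p ∈ H ×ˢ T, Φ p ∈ G := by
    rintro ⟨D, x⟩ hp
    obtain ⟨hD, hx⟩ := mem_product.1 hp
    obtain ⟨h1, h2, h3⟩ := hH D hD
    refine (mG _).2 ⟨?_, insert_subset_iff.2 ⟨?_, fun S hS => ?_⟩⟩
    · intro S hS S' hS'
      obtain ⟨Q, hQ, rfl⟩ := mem_image.1 hS
      obtain ⟨Q', hQ', rfl⟩ := mem_image.1 hS'
      exact (h1 Q hQ Q' hQ').imp (fun h => image_subset_image h) (fun h => image_subset_image h)
    · exact mem_image.2 ⟨univ, h2, act_univ x⟩
    · exact mem_image.2 ⟨S, h3 (hK'K hS), act_K' x hx S hS⟩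
  have hΦinj : Set.InjOn Φ (H ×ˢ T : Finset _) := by
    rintro ⟨D, x⟩ hp ⟨D', x'⟩ hp' he
    obtain ⟨hD, hx⟩ := mem_product.1 (mem_coe.1 hp)
    obtain ⟨hD', hx'⟩ := mem_product.1 (mem_coe.1 hp')
    obtain ⟨-, -, h3⟩ := hH D hD
    obtain ⟨-, -, h3'⟩ := hH D' hD'
    have m1 : act x A ∈ Φ (D', x') := he ▸ mem_image.2 ⟨A, h3 hA, rfl⟩
    have m2 : act x' A ∈ Φ (D', x') := mem_image.2 ⟨A, h3' hA, rfl⟩
    have hchain := ((mG _).1 (hΦG _ (mem_coe.1 hp'))).1
    have heq : act x A = act x' A := by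
      rcases hchain _ m1 _ m2 with h | h
      · exact eq_of_subset_of_card_le h (by rw [act_card, act_card])
      · exact (eq_of_subset_of_card_le h (by rw [act_card, act_card])).symm
    have hxx : x = x' := (act_A x' hx' x hx).1 (heq ▸ (act_A x hx x hx).2 rfl)
    subst hxx
    have : D = D' := Finset.image_injective (act_inj x) he
    rw [this]
  have hnot : insert univ K' ∉ (H ×ˢ T).image Φ := by
    intro h
    obtain ⟨⟨D, x⟩, hp, he⟩ := mem_image.1 h
    obtain ⟨hD, hx⟩ := mem_product.1 hp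
    have m1 : act x A ∈ insert univ K' := he ▸ mem_image.2 ⟨A, (hH D hD).2.2 hA, rfl⟩
    rcases mem_insert.1 m1 with h1 | h1
    · apply hAu
      have := act_card x A
      rw [h1, card_univ] at this
      exact (card_eq_iff_eq_univ A).1 this.symm
    · exact notin x hx _ h1 ((act_A x hx x hx).2 rfl)
  have hin : insert univ K' ∈ G := by
    refine (mG _).2 ⟨fun S hS S' hS' => ?_, Subset.rfl⟩
    rcases mem_insert.1 hS with rfl | hS
    · exact .inr (subset_univ _)
    · rcases mem_insert.1 hS' with rfl | hS'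
      · exact .inl (subset_univ _)
      · exact (hF.1 C₀ hC₀).2 S (hK C₀ hC₀ (hK'K hS)) S' (hK C₀ hC₀ (hK'K hS'))
  have hlt : #H * #T < #G := by
    rw [← card_product, ← card_image_of_injOn hΦinj]
    refine card_lt_card ⟨image_subset_iff.2 hΦG, fun h => hnot (h hin)⟩
  have hFH : #F ≤ 2 * #H := by
    refine card_le_mul_card_image F 2 fun D hD => ?_
    refine (card_le_card (t := {D, D.erase univ}) fun C hC => ?_).trans card_le_two
    obtain ⟨-, rfl⟩ := mem_filter.1 hC
    by_cases h : univ ∈ C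
    · simp [insert_eq_of_mem h]
    · simp [erase_insert h]
  rw [hTcard] at hlt
  calc (n - #A + 1) * #F ≤ (n - #A + 1) * (2 * #H) := Nat.mul_le_mul_left _ hFH
    _ = 2 * (#H * (n - #A + 1)) := by ring
    _ < 2 * #G := by omega

/-- The case of a smallest common set different from the empty set. -/
lemma bottom {n d : ℕ} (hd : 2 ≤ d) {F : Finset (Finset (Finset (Fin n)))}
    (hF : DIntersecting d F) (hne : F.Nonempty) {K : Finset (Finset (Fin n))} (hKd : d ≤ #K)
    (hK : ∀ C ∈ F, K ⊆ C) {A : Finset (Fin n)} (hA : A ∈ K) (hmin : ∀ B ∈ K, A ⊆ B)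
    (hAe : A ≠ ∅) :
    ∃ G : Finset (Finset (Finset (Fin n))), DIntersecting d G ∧ (#A + 1) * #F < 2 * #G := by
  classical
  have ci : Function.Injective (compl : Finset (Fin n) → Finset (Fin n)) := compl_injective
  let cc : Finset (Finset (Fin n)) → Finset (Finset (Fin n)) := fun C => C.image compl
  have cci : Function.Injective cc := Finset.image_injective ci
  have hF' : DIntersecting d (F.image cc) := by
    constructor
    · intro D hD
      obtain ⟨C, hC, rfl⟩ := mem_image.1 hD
      refine ⟨(hF.1 C hC).1.image _, fun S hS S' hS' => ?_⟩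
      obtain ⟨Q, hQ, rfl⟩ := mem_image.1 hS
      obtain ⟨Q', hQ', rfl⟩ := mem_image.1 hS'
      exact ((hF.1 C hC).2 Q hQ Q' hQ').symm.imp compl_subset_compl.2 compl_subset_compl.2
    · intro D hD D' hD'
      obtain ⟨C, hC, rfl⟩ := mem_image.1 hD
      obtain ⟨C', hC', rfl⟩ := mem_image.1 hD'
      rw [← image_inter _ _ ci, card_image_of_injective _ ci]
      exact hF.2 C hC C' hC'
  obtain ⟨G, hG, h⟩ := top hd hF' (hne.image _) (K := cc K) (A := Aᶜ)
    (by rwa [card_image_of_injective _ ci])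
    (fun D hD => by
      obtain ⟨C, hC, rfl⟩ := mem_image.1 hD
      exact image_subset_image (hK C hC))
    (mem_image_of_mem _ hA)
    (fun B hB => by
      obtain ⟨Q, hQ, rfl⟩ := mem_image.1 hB
      exact compl_subset_compl.2 (hmin Q hQ))
    (fun h => hAe (by simpa using congrArg compl h))
  refine ⟨G, hG, ?_⟩
  have h1 : #A ≤ n := by simpa using card_le_univ A
  rw [card_image_of_injective _ cci, card_compl, Fintype.card_fin, Nat.sub_sub_self h1] at h
  exact h

lemma optimal_pos {n d : ℕ} (hd : d ≤ n + 1) {F : Finset (Finset (Finset (Fin n)))}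
    (hF : Optimal d F) : 0 < #F := by
  classical
  have hinj : Set.InjOn (X n) (range (n + 1) : Finset ℕ) := fun i hi j hj h =>
    X_inj (Nat.lt_succ_iff.1 (mem_range.1 (mem_coe.1 hi)))
      (Nat.lt_succ_iff.1 (mem_range.1 (mem_coe.1 hj))) h
  have h : DIntersecting d ({(range (n + 1)).image (X n)} : Finset (Finset (Finset (Fin n)))) := by
    constructor
    · intro C hC
      rw [mem_singleton.1 hC]
      refine ⟨⟨X n 0, mem_image.2 ⟨0, by simp, rfl⟩⟩, fun S hS S' hS' => ?_⟩
      obtain ⟨i, -, rfl⟩ := mem_image.1 hS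
      obtain ⟨j, -, rfl⟩ := mem_image.1 hS'
      exact (le_total i j).imp X_mono X_mono
    · intro C hC C' hC'
      rw [mem_singleton.1 hC, mem_singleton.1 hC', inter_self, card_image_of_injOn hinj,
        card_range]
      exact hd
  have := hF.2 _ h
  rw [card_singleton] at this
  omega

/-- **Common members of the chains of a `d`-intersecting family, `d ≥ 2`.** -/
theorem result :
    -- (1) a family with at least `d` common sets which do not include both `∅` and `[n]`
    (∀ (n d : ℕ) (F : Finset (Finset (Finset (Fin n)))) (K : Finset (Finset (Fin n))),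
      2 ≤ d → DIntersecting d F → F.Nonempty → d ≤ #K → (∀ C ∈ F, K ⊆ C) →
      (∀ A ∈ K, (∀ B ∈ K, B ⊆ A) → A ≠ univ →
        ∃ G : Finset (Finset (Finset (Fin n))), DIntersecting d G ∧
          (n - #A + 1) * #F < 2 * #G) ∧
      (∀ A ∈ K, (∀ B ∈ K, A ⊆ B) → A ≠ ∅ →
        ∃ G : Finset (Finset (Finset (Fin n))), DIntersecting d G ∧ (#A + 1) * #F < 2 * #G)) ∧
    -- (2) optimal families
    (∀ (n d : ℕ) (F : Finset (Finset (Finset (Fin n)))) (K : Finset (Finset (Fin n))),
      2 ≤ d → d ≤ n + 1 → Optimal d F → d ≤ #K → (∀ C ∈ F, K ⊆ C) → ∅ ∈ K ∧ univ ∈ K) ∧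
    -- (3) initial segments
    (∀ (n d : ℕ) (F G : Finset (Finset (Finset (Fin n)))), 2 ≤ d → d ≤ n →
      DIntersecting d F → (∀ C ∈ F, ∀ j < d, X n j ∈ C) → Optimal d G →
      (n - d + 2) * #F < 2 * #G) ∧
    -- (4) the range of the question
    (∀ ε M : ℝ, 0 < ε → ∃ n₀ : ℕ, ∀ n ≥ n₀, ∀ d : ℕ, 2 ≤ d → (d : ℝ) ≤ n * (1 - ε) →
      ∀ F G : Finset (Finset (Finset (Fin n))), DIntersecting d F →
        (∀ C ∈ F, ∀ j < d, X n j ∈ C) → Optimal d G → M * #F < #G) := by
  classical
  have p1 : ∀ (n d : ℕ) (F : Finset (Finset (Finset (Fin n)))) (K : Finset (Finset (Fin n))),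
      2 ≤ d → DIntersecting d F → F.Nonempty → d ≤ #K → (∀ C ∈ F, K ⊆ C) →
      (∀ A ∈ K, (∀ B ∈ K, B ⊆ A) → A ≠ univ →
        ∃ G : Finset (Finset (Finset (Fin n))), DIntersecting d G ∧
          (n - #A + 1) * #F < 2 * #G) ∧
      (∀ A ∈ K, (∀ B ∈ K, A ⊆ B) → A ≠ ∅ →
        ∃ G : Finset (Finset (Finset (Fin n))), DIntersecting d G ∧
          (#A + 1) * #F < 2 * #G) :=
    fun n d F K hd hF hne hKd hK => ⟨fun A hA h1 h2 => top hd hF hne hKd hK hA h1 h2,
      fun A hA h1 h2 => bottom hd hF hne hKd hK hA h1 h2⟩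
  have p3 : ∀ (n d : ℕ) (F G : Finset (Finset (Finset (Fin n)))), 2 ≤ d → d ≤ n →
      DIntersecting d F → (∀ C ∈ F, ∀ j < d, X n j ∈ C) → Optimal d G →
      (n - d + 2) * #F < 2 * #G := by
    intro n d F G hd hdn hF hX hG
    rcases F.eq_empty_or_nonempty with rfl | hne
    · have := optimal_pos (by omega) hG
      simpa using this
    have hinj : Set.InjOn (X n) (range d : Finset ℕ) := fun i hi j hj h =>
      X_inj ((mem_range.1 (mem_coe.1 hi)).le.trans hdn)
        ((mem_range.1 (mem_coe.1 hj)).le.trans hdn) h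
    obtain ⟨G', hG', h⟩ := (p1 n d F ((range d).image (X n)) hd hF hne
      (by rw [card_image_of_injOn hinj, card_range])
      (fun C hC S hS => by
        obtain ⟨j, hj, rfl⟩ := mem_image.1 hS
        exact hX C hC j (mem_range.1 hj))).1 (X n (d - 1))
      (mem_image.2 ⟨d - 1, mem_range.2 (by omega), rfl⟩)
      (fun B hB => by
        obtain ⟨j, hj, rfl⟩ := mem_image.1 hB
        have := mem_range.1 hj
        exact X_mono (by omega))
      (fun h => by
        have := congrArg card h
        rw [card_X (by omega), card_univ, Fintype.card_fin] at this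
        omega)
    rw [card_X (by omega)] at h
    have h2 := hG.2 G' hG'
    have h3 : n - (d - 1) + 1 = n - d + 2 := by omega
    rw [h3] at h
    omega
  refine ⟨p1, ?_, p3, ?_⟩
  · intro n d F K hd hdn hF hKd hK
    have hpos := optimal_pos hdn hF
    have hne : F.Nonempty := card_pos.1 hpos
    obtain ⟨C₀, hC₀⟩ := hne
    have hKne : K.Nonempty := by
      rw [← card_pos]
      omega
    have hch : ∀ S ∈ K, ∀ S' ∈ K, S ⊆ S' ∨ S' ⊆ S := fun S hS S' hS' =>
      (hF.1.1 C₀ hC₀).2 S (hK C₀ hC₀ hS) S' (hK C₀ hC₀ hS')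
    constructor
    · obtain ⟨A, hA, hmin⟩ := exists_min_image K card hKne
      by_contra hcon
      have hne' : A ≠ ∅ := fun h => hcon (h ▸ hA)
      obtain ⟨G, hG, h⟩ := (p1 n d F K hd hF.1 ⟨C₀, hC₀⟩ hKd hK).2 A hA (fun B hB => by
        rcases hch A hA B hB with h | h
        · exact h
        · exact (eq_of_subset_of_card_le h (hmin B hB)).symm.subset) hne'
      have h1 := hF.2 G hG
      have h2 : 1 ≤ #A := card_pos.2 (nonempty_iff_ne_empty.2 hne')
      have h3 : 2 * #F ≤ (#A + 1) * #F := Nat.mul_le_mul_right _ (by omega)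
      omega
    · obtain ⟨A, hA, hmax⟩ := exists_max_image K card hKne
      by_contra hcon
      have hne' : A ≠ univ := fun h => hcon (h ▸ hA)
      obtain ⟨G, hG, h⟩ := (p1 n d F K hd hF.1 ⟨C₀, hC₀⟩ hKd hK).1 A hA (fun B hB => by
        rcases hch B hB A hA with h | h
        · exact h
        · exact (eq_of_subset_of_card_le h (hmax B hB)).symm.subset) hne'
      have h1 := hF.2 G hG
      have h2 : #A < n := by
        rcases (card_le_univ A).lt_or_eq with h | h
        · simpa using h
        · exact absurd ((card_eq_iff_eq_univ A).1 h) hne'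
      have h3 : 2 * #F ≤ (n - #A + 1) * #F := Nat.mul_le_mul_right _ (by omega)
      omega
  · intro ε M hε
    obtain ⟨n₀, hn₀⟩ := exists_nat_ge (2 * |M| / ε)
    refine ⟨n₀, fun n hn d hd hdn F G hF hX hG => ?_⟩
    have hn1 : (n₀ : ℝ) ≤ n := by exact_mod_cast hn
    have hdn' : d ≤ n := by
      have h0 : (0 : ℝ) ≤ n := Nat.cast_nonneg n
      have : (d : ℝ) ≤ n := by nlinarith
      exact_mod_cast this
    have h := p3 n d F G hd hdn' hF hX hG
    have h' : ((n : ℝ) - d + 2) * #F < 2 * #G := by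
      have : (((n - d + 2) * #F : ℕ) : ℝ) < ((2 * #G : ℕ) : ℝ) := by exact_mod_cast h
      push_cast [Nat.cast_sub hdn'] at this
      exact this
    have h2 : 2 * |M| ≤ ε * n := by
      have := (div_le_iff₀ hε).1 (hn₀.trans hn1)
      linarith
    have h3 : 2 * M ≤ (n : ℝ) - d + 2 := by
      have := le_abs_self M
      nlinarith
    have h4 : (0 : ℝ) ≤ #F := Nat.cast_nonneg _
    nlinarith

end Pool.Agent.Results.MP_63ed06_co.CommonMembers
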